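import Pool.Agent.H.MP_9e8ffd_lc.D

namespace Pool.Agent.Results.MP_9e8ffd_lc.No

open Filter Topology Pool.Agent.H.MP_9e8ffd_lc

theorem result : ¬ @MeasurableSet (ℕ → ℤ) (borel (ℕ → ℤ)) {n | ∃ θ : ℝ, Irrational θ ∧
    Tendsto (fun k => Complex.exp (2 * Real.pi * Complex.I * θ) ^ n k) atTop (𝓝 1)} := by
  intro h
  rw [← BorelSpace.measurable_eq] at h
  obtain ⟨e, he⟩ := enum
  refine IF_not ((sq_meas e h).congr (Set.ext fun T => ⟨fun ⟨θ, h1, h2⟩ => ?_, fun h => ?_⟩))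
  · exact wf he h1 ((tend_iff e T θ).1 ((link _ _).1 h2))
  · exact (ifd he h).imp fun θ h => ⟨h.1, (link _ _).2 ((tend_iff e T θ).2 h.2)⟩

end Pool.Agent.Results.MP_9e8ffd_lc.No
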